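import Pool.Agent.Work.MP_41df87_co.Main

/-!
# MP_41df87_co, Q1: no bound `g k * log |V|` on the clique-width

There is no function `g` such that `cwd(G) ≤ g(k) log |V(G)|` for all graphs `G` with a monotone
partition into `k` cliques whose box graph is a chordless cycle (with `k ≥ 3` vertices).
It already fails for `k = 4`: the graph `spiral m` has `4 m²` vertices and clique-width at least
`m / 33` (`spiral_lower`), so its clique-width is at least `√n / 66`.
-/

namespace Pool.Agent.Results.MP_41df87_co.NoLogBound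

open Pool.Agent.Work.MP_41df87_co

theorem result : ¬ ∃ g : ℕ → ℝ, ∀ (k : ℕ) (V : Type) [Fintype V] (G : SimpleGraph V)
    (P : V → Fin k), 3 ≤ k → IsMonotoneCliquePartition G P →
    Nonempty (boxGraph G P ≃g SimpleGraph.cycleGraph k) →
    ∃ c : ℕ, CliqueWidthLE c G ∧ (c : ℝ) ≤ g k * Real.log (Fintype.card V) := by
  rintro ⟨g, hg⟩
  obtain ⟨m, hm, hno⟩ := no_log_bound (g 4)
  obtain ⟨c, hc, hle⟩ := hg 4 (Fin 4 × Fin (m * m)) (spiral m) (fun u => u.1) (by norm_num)
    (spiral_partition (by omega)) ⟨spiralBoxIso hm⟩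
  exact absurd (hno c hc) (not_lt.2 hle)

end Pool.Agent.Results.MP_41df87_co.NoLogBound
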